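import Mathlib
set_option autoImplicit false

/-! Finitely many rays and somewhere dense orbits: definitions, and the counterexamples in
dimension at least two. -/

open Module Set

namespace Pool.Agent.Q224.RY

/-- the ray `{t w : t > 0}` -/
def ray (𝕜 : Type*) [RCLike 𝕜] {V : Type*} [NormedAddCommGroup V] [NormedSpace 𝕜 V] (w : V) :
    Set V := {x | ∃ t : ℝ, 0 < t ∧ x = (t : 𝕜) • w}

/-- `A` is coarsely dense along `Y`: the balls of some radius `D` around the points of `A`
cover `Y` -/
def CoarselyDenseAlong {V : Type*} [NormedAddCommGroup V] (A Y : Set V) : Prop :=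
  ∃ D : ℝ, 0 < D ∧ Y ⊆ ⋃ a ∈ A, Metric.ball a D

/-- the closure of `A` has interior points -/
def SomewhereDense {V : Type*} [NormedAddCommGroup V] (A : Set V) : Prop :=
  (interior (closure A)).Nonempty

variable {𝕜 : Type*} [RCLike 𝕜] {V : Type*} [NormedAddCommGroup V] [NormedSpace 𝕜 V]

/-- the orbit of `v` -/
def orbit (S : Subsemigroup (LinearMap.GeneralLinearGroup 𝕜 V)) (v : V) : Set V :=
  {x | ∃ s ∈ S, x = (s : V →ₗ[𝕜] V) v}

/-- `S` is generated by finitely many (at least one) pairwise commuting elements -/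
def FGComm (S : Subsemigroup (LinearMap.GeneralLinearGroup 𝕜 V)) : Prop :=
  ∃ F : Set (LinearMap.GeneralLinearGroup 𝕜 V), F.Finite ∧ F.Nonempty ∧
    (∀ a ∈ F, ∀ b ∈ F, a * b = b * a) ∧ Subsemigroup.closure F = S

variable (𝕜 V) in
/-- There are finitely many rays such that every finitely generated commutative linear semigroup
with an orbit coarsely dense along these rays has a somewhere dense orbit. -/
def Forcing : Prop :=
  ∃ W : Set V, W.Finite ∧ (∀ w ∈ W, w ≠ 0) ∧
    ∀ S : Subsemigroup (LinearMap.GeneralLinearGroup 𝕜 V), FGComm S →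
      (∃ v, CoarselyDenseAlong (orbit S v) (⋃ w ∈ W, ray 𝕜 w)) →
      ∃ v, SomewhereDense (orbit S v)

/-! ### The maps `x ↦ a x + l(x) u` -/

section T
variable (l : V →ₗ[𝕜] 𝕜)

def Tlin (a : 𝕜) (u : V) : V →ₗ[𝕜] V := a • LinearMap.id + l.smulRight u

lemma Tlin_apply (a : 𝕜) (u x : V) : Tlin l a u x = a • x + l x • u := rfl

lemma Tlin_comp {a b : 𝕜} {u v : V} (hv : l v = 0) (x : V) :
    Tlin l a u (Tlin l b v x) = (a * b) • x + l x • (a • v + b • u) := by
  simp only [Tlin_apply, map_add, map_smul, hv]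
  module

def T (a : 𝕜) (u : V) (ha : a ≠ 0) (hu : l u = 0) : LinearMap.GeneralLinearGroup 𝕜 V where
  val := Tlin l a u
  inv := Tlin l a⁻¹ (-(a⁻¹ * a⁻¹) • u)
  val_inv := by
    ext x
    rw [Module.End.mul_apply, Tlin_comp l (by simp [hu])]
    rw [mul_inv_cancel₀ ha, one_smul, smul_smul, ← add_smul]
    have : a * -(a⁻¹ * a⁻¹) + a⁻¹ = 0 := by field_simp; ring
    rw [this]
    simp
  inv_val := by
    ext x
    rw [Module.End.mul_apply, Tlin_comp l hu]
    rw [inv_mul_cancel₀ ha, one_smul, smul_smul, ← add_smul]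
    have : a⁻¹ + a * -(a⁻¹ * a⁻¹) = 0 := by field_simp; ring
    rw [this]
    simp

lemma T_apply (a : 𝕜) (u : V) (ha : a ≠ 0) (hu : l u = 0) (x : V) :
    ((T l a u ha hu : LinearMap.GeneralLinearGroup 𝕜 V) : V →ₗ[𝕜] V) x = a • x + l x • u := rfl

lemma T_comm (a b : 𝕜) (u v : V) (ha : a ≠ 0) (hu : l u = 0) (hb : b ≠ 0) (hv : l v = 0) :
    T l a u ha hu * T l b v hb hv = T l b v hb hv * T l a u ha hu := by
  apply Units.ext
  ext x
  simp only [Units.val_mul, Module.End.mul_apply]
  change Tlin l a u (Tlin l b v x) = Tlin l b v (Tlin l a u x)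
  rw [Tlin_comp l hv, Tlin_comp l hu, mul_comm a b, add_comm (a • v)]

end T

/-- the numbers `exp (i + j √2)` are dense in the positive reals -/
lemma dense_exp (t ε : ℝ) (ht : 0 < t) (hε : 0 < ε) :
    ∃ i j : ℤ, |Real.exp (i + j * Real.sqrt 2) - t| < ε := by
  have h1 : Dense (AddSubgroup.closure {Real.sqrt 2, (1 : ℝ)} : Set ℝ) := by
    rw [dense_addSubgroupClosure_pair_iff]
    simpa using irrational_sqrt_two
  have hc : ContinuousAt Real.exp (Real.log t) := Real.continuous_exp.continuousAt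
  rw [Metric.continuousAt_iff] at hc
  obtain ⟨δ, hδ, h2⟩ := hc ε hε
  obtain ⟨y, hy, hyd⟩ := h1.exists_dist_lt (Real.log t) hδ
  rw [SetLike.mem_coe, AddSubgroup.mem_closure_pair] at hy
  obtain ⟨j, i, hij⟩ := hy
  refine ⟨i, j, ?_⟩
  have h3 := h2 (x := y) (by rw [dist_comm]; exact hyd)
  rw [Real.exp_log ht, Real.dist_eq] at h3
  have : (i : ℝ) + j * Real.sqrt 2 = y := by rw [← hij]; simp; ring
  rw [this]
  exact h3

/-- sums `∑ n i * γ i` with `γ i > 0` below a bound form a finite set -/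
lemma finite_sums {ι : Type*} [Fintype ι] (γ : ι → ℝ) (hγ : ∀ i, 0 < γ i) (B : ℝ) :
    {y : ℝ | y < B ∧ ∃ n : ι → ℕ, y = ∑ i, (n i : ℝ) * γ i}.Finite := by
  classical
  have h1 : (Set.Iic (fun i => ⌈B / γ i⌉₊) : Set (ι → ℕ)).Finite := Set.finite_Iic _
  refine (h1.image (fun n => ∑ i, (n i : ℝ) * γ i)).subset ?_
  rintro y ⟨hy, n, rfl⟩
  refine ⟨n, ?_, rfl⟩
  intro i
  have h2 : (n i : ℝ) * γ i ≤ ∑ j, (n j : ℝ) * γ j :=
    Finset.single_le_sum (f := fun j => (n j : ℝ) * γ j)
      (fun j _ => mul_nonneg (Nat.cast_nonneg _) (hγ j).le) (Finset.mem_univ i)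
  have h3 : (n i : ℝ) ≤ B / γ i := by
    rw [le_div_iff₀ (hγ i)]
    linarith
  exact_mod_cast h3.trans (Nat.le_ceil _)

/-- In dimension at least two finitely many rays do not force somewhere dense orbits. -/
theorem not_forcing [FiniteDimensional 𝕜 V] (hdim : 2 ≤ finrank 𝕜 V) : ¬ Forcing 𝕜 V := by
  classical
  rintro ⟨W0, hW0, hne0, hforce⟩
  -- a nonzero vector
  have hnt : Nontrivial V := Module.nontrivial_of_finrank_pos (R := 𝕜) (by omega)
  obtain ⟨w0, hw0⟩ := exists_ne (0 : V)
  set W : Set V := insert w0 W0 with hW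
  have hWfin : W.Finite := hW0.insert w0
  have hWne : ∀ w ∈ W, w ≠ 0 := by
    rintro w (rfl | hw)
    · exact hw0
    · exact hne0 w hw
  have : Fintype W := hWfin.fintype
  obtain ⟨l, hl⟩ := Module.exists_dual_forall_apply_ne_zero (K := 𝕜) (fun w : W => (w : V))
    (fun w => hWne w w.2)
  have hlw : ∀ w ∈ W, l w ≠ 0 := fun w hw => hl ⟨w, hw⟩
  have hw0W : w0 ∈ W := Set.mem_insert _ _
  -- a nonzero vector in the kernel of `l`
  obtain ⟨e, he, hle⟩ : ∃ e : V, e ≠ 0 ∧ l e = 0 := by
    by_contra hcon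
    push Not at hcon
    have hker : LinearMap.ker l = ⊥ := by
      rw [LinearMap.ker_eq_bot']
      intro m hm
      by_contra hne
      exact hcon m hne hm
    have h1 := LinearMap.finrank_le_finrank_of_injective (LinearMap.ker_eq_bot.mp hker)
    rw [finrank_self] at h1
    omega
  obtain ⟨g0, hg0⟩ := Module.exists_dual_forall_apply_ne_zero (K := 𝕜) (fun _ : Unit => e)
    (fun _ => he)
  obtain ⟨g, hg⟩ : ∃ g : V →ₗ[𝕜] 𝕜, g e = 1 := by
    refine ⟨(g0 e)⁻¹ • g0, ?_⟩
    rw [LinearMap.smul_apply, smul_eq_mul, inv_mul_cancel₀ (hg0 ())]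
  set h : V → ℝ := fun x => RCLike.re (g x / l x) with hh
  set M : ℝ := 1 + ∑ w : W, |h w - h w0| with hM
  set v0 : V := (l w0)⁻¹ • w0 - (M : 𝕜) • e with hv0
  have hlv0 : l v0 = 1 := by
    rw [hv0, map_sub, map_smul, map_smul, hle, smul_zero, sub_zero, smul_eq_mul,
      inv_mul_cancel₀ (hlw w0 hw0W)]
  have hgv0 : g v0 = g w0 / l w0 - (M : 𝕜) := by
    rw [hv0, map_sub, map_smul, map_smul, hg, smul_eq_mul, smul_eq_mul, mul_one]
    ring
  set γ : W → ℝ := fun w => h w - h w0 + M with hγdef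
  have hγ : ∀ w, 0 < γ w := by
    intro w
    have h1 : |h w - h w0| ≤ ∑ w : W, |h w - h w0| :=
      Finset.single_le_sum (f := fun w : W => |h w - h w0|) (fun _ _ => abs_nonneg _)
        (Finset.mem_univ w)
    have h2 := neg_abs_le (h w - h w0)
    rw [hγdef, hM]
    simp only
    linarith
  have hu : ∀ w : V, l (w - l w • v0) = 0 := by
    intro w
    rw [map_sub, map_smul, hlv0]
    simp
  -- the generators
  have hz : l (0 : V) = 0 := map_zero l
  have hexp : ∀ x : ℝ, ((Real.exp x : ℝ) : 𝕜) ≠ 0 := fun x => by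
    exact_mod_cast (Real.exp_pos x).ne'
  let D : ℝ → LinearMap.GeneralLinearGroup 𝕜 V := fun x => T l ((Real.exp x : ℝ) : 𝕜) 0 (hexp x) hz
  let G : W → LinearMap.GeneralLinearGroup 𝕜 V :=
    fun w => T l (l w) ((w : V) - l w • v0) (hlw w w.2) (hu w)
  set F : Set (LinearMap.GeneralLinearGroup 𝕜 V) :=
    {D 1, D (-1), D (Real.sqrt 2), D (-Real.sqrt 2)} ∪ Set.range G with hF
  have hFfin : F.Finite := by
    rw [hF]
    exact (Set.toFinite _).union (Set.finite_range G)
  have hD1 : D 1 ∈ F := by rw [hF]; left; simp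
  have hD2 : D (-1) ∈ F := by rw [hF]; left; simp
  have hD3 : D (Real.sqrt 2) ∈ F := by rw [hF]; left; simp
  have hD4 : D (-Real.sqrt 2) ∈ F := by rw [hF]; left; simp
  have hGF : ∀ w, G w ∈ F := fun w => by rw [hF]; right; exact ⟨w, rfl⟩
  -- all generators have the form `T a u`
  have hform : ∀ s ∈ F, ∃ (a : 𝕜) (u : V) (ha : a ≠ 0) (hu : l u = 0), s = T l a u ha hu := by
    intro s hs
    rw [hF] at hs
    rcases hs with hs | ⟨w, rfl⟩
    · simp only [Set.mem_insert_iff, Set.mem_singleton_iff] at hs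
      rcases hs with rfl | rfl | rfl | rfl
      · exact ⟨_, _, _, _, rfl⟩
      · exact ⟨_, _, _, _, rfl⟩
      · exact ⟨_, _, _, _, rfl⟩
      · exact ⟨_, _, _, _, rfl⟩
    · exact ⟨_, _, _, _, rfl⟩
  set S := Subsemigroup.closure F with hS
  have hFG : FGComm S := by
    refine ⟨F, hFfin, ⟨_, hD1⟩, ?_, rfl⟩
    intro a ha b hb
    obtain ⟨a1, u1, ha1, hu1, rfl⟩ := hform a ha
    obtain ⟨a2, u2, ha2, hu2, rfl⟩ := hform b hb
    exact T_comm l _ _ _ _ _ _ _ _
  have hFS : F ⊆ S := Subsemigroup.subset_closure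
  -- the positive scalars in `S`
  have hDmul : ∀ x y : ℝ, D x ∈ S → D y ∈ S → D (x + y) ∈ S := by
    intro x y hx hy
    have : D (x + y) = D x * D y := by
      apply Units.ext
      ext z
      rw [Units.val_mul, Module.End.mul_apply]
      simp only [D, T_apply, smul_zero, add_zero, smul_smul]
      rw [Real.exp_add]
      push_cast
      rfl
    rw [this]
    exact S.mul_mem hx hy
  have hD0 : D 0 ∈ S := by
    have := hDmul 1 (-1) (hFS hD1) (hFS hD2)
    simpa using this
  have hDn : ∀ (x : ℝ), D x ∈ S → ∀ n : ℕ, D (n * x) ∈ S := by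
    intro x hx n
    induction n with
    | zero => simpa using hD0
    | succ n ih =>
      have := hDmul _ _ ih hx
      convert this using 2
      push_cast; ring
  have hDz : ∀ (x : ℝ), D x ∈ S → D (-x) ∈ S → ∀ n : ℤ, D (n * x) ∈ S := by
    intro x hx hx' n
    obtain ⟨m, rfl | rfl⟩ := Int.eq_nat_or_neg n
    · exact_mod_cast hDn x hx m
    · have := hDn (-x) hx' m
      convert this using 2
      push_cast; ring
  have hDij : ∀ i j : ℤ, D (i + j * Real.sqrt 2) ∈ S := by
    intro i j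
    have h1 := hDz 1 (hFS hD1) (hFS hD2) i
    have h2 := hDz _ (hFS hD3) (hFS hD4) j
    have := hDmul _ _ h1 h2
    rwa [mul_one] at this
  -- coarse density
  have hcoarse : CoarselyDenseAlong (orbit S v0) (⋃ w ∈ W0, ray 𝕜 w) := by
    refine ⟨1, one_pos, ?_⟩
    intro x hx
    simp only [Set.mem_iUnion] at hx
    obtain ⟨w, hw, t, ht, rfl⟩ := hx
    have hwW : w ∈ W := Set.mem_insert_of_mem _ hw
    have hwn : 0 < ‖w‖ := norm_pos_iff.mpr (hWne w hwW)
    obtain ⟨i, j, hij⟩ := dense_exp t (1 / ‖w‖) ht (by positivity)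
    simp only [Set.mem_iUnion, Metric.mem_ball]
    refine ⟨((Real.exp (i + j * Real.sqrt 2) : ℝ) : 𝕜) • w, ?_, ?_⟩
    · refine ⟨D (i + j * Real.sqrt 2) * G ⟨w, hwW⟩, S.mul_mem (hDij i j) (hFS (hGF _)), ?_⟩
      rw [Units.val_mul, Module.End.mul_apply]
      simp only [D, G, T_apply, smul_zero, add_zero, hlv0, one_smul]
      rw [add_sub_cancel]
    · rw [dist_eq_norm, ← sub_smul, norm_smul, ← RCLike.ofReal_sub, RCLike.norm_ofReal,
        abs_sub_comm]
      calc |Real.exp (i + j * Real.sqrt 2) - t| * ‖w‖ < 1 / ‖w‖ * ‖w‖ := by gcongr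
        _ = 1 := by field_simp
  obtain ⟨x, hx⟩ := hforce S hFG ⟨v0, hcoarse⟩
  -- no orbit is somewhere dense
  obtain ⟨y1, hy1⟩ := hx
  set U := interior (closure (orbit S x)) with hU
  have hUo : IsOpen U := isOpen_interior
  have hlc : Continuous l := LinearMap.continuous_of_finiteDimensional l
  have hgc : Continuous g := LinearMap.continuous_of_finiteDimensional g
  -- proper subspaces have no interior points
  have hkerne : ∃ y0 ∈ U, l y0 ≠ 0 := by
    by_contra hcon
    push Not at hcon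
    have hsub : U ⊆ (LinearMap.ker l : Set V) := fun y hy => LinearMap.mem_ker.mpr (hcon y hy)
    have h1 : (interior (LinearMap.ker l : Set V)).Nonempty :=
      ⟨y1, interior_maximal hsub hUo hy1⟩
    have h2 := Submodule.eq_top_of_nonempty_interior' _ h1
    have h3 : w0 ∈ LinearMap.ker l := by rw [h2]; trivial
    exact hlw w0 hw0W (LinearMap.mem_ker.mp h3)
  obtain ⟨y0, hy0, hly0⟩ := hkerne
  -- the action on `h`
  have hact : ∀ s ∈ S, ∃ n : W → ℕ, ∃ c : 𝕜, c ≠ 0 ∧ ∀ z, l ((s : V →ₗ[𝕜] V) z) = c * l z ∧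
      (l z ≠ 0 → h ((s : V →ₗ[𝕜] V) z) = h z + ∑ w, (n w : ℝ) * γ w) := by
    intro s hs
    induction hs using Subsemigroup.closure_induction with
    | mem s hs =>
      rw [hF] at hs
      rcases hs with hs | ⟨w, rfl⟩
      · obtain ⟨x, rfl⟩ : ∃ x, s = D x := by
          simp only [Set.mem_insert_iff, Set.mem_singleton_iff] at hs
          rcases hs with rfl | rfl | rfl | rfl
          · exact ⟨_, rfl⟩
          · exact ⟨_, rfl⟩
          · exact ⟨_, rfl⟩
          · exact ⟨_, rfl⟩
        refine ⟨0, ((Real.exp x : ℝ) : 𝕜), hexp x, ?_⟩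
        intro z
        simp only [D, T_apply, smul_zero, add_zero, map_smul, smul_eq_mul, Pi.zero_apply,
          Nat.cast_zero, zero_mul, Finset.sum_const_zero, true_and]
        intro hz
        simp only [hh, map_smul, smul_eq_mul]
        rw [mul_div_mul_left _ _ (hexp x)]
      · refine ⟨Pi.single w 1, l w, hlw w w.2, ?_⟩
        intro z
        have h1 : l ((G w : V →ₗ[𝕜] V) z) = l w * l z := by
          simp only [G, T_apply, map_add, map_smul, hu, smul_eq_mul, mul_zero, add_zero]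
        refine ⟨h1, fun hz => ?_⟩
        have h2 : g ((G w : V →ₗ[𝕜] V) z) = l w * g z + l z * (g w - l w * g v0) := by
          simp only [G, T_apply, map_add, map_smul, map_sub, smul_eq_mul]
        have h3 : g ((G w : V →ₗ[𝕜] V) z) / l ((G w : V →ₗ[𝕜] V) z) =
            g z / l z + (g w / l w - (g w0 / l w0 - (M : 𝕜))) := by
          rw [h1, h2, hgv0]
          have := hlw w w.2
          have h0 := hlw w0 hw0W
          field_simp
        have h4 : ∑ w', ((Pi.single w 1 : W → ℕ) w' : ℝ) * γ w' = γ w := by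
          rw [Finset.sum_eq_single w]
          · simp
          · intro b _ hb
            simp [Pi.single_eq_of_ne hb]
          · intro hcon
            exact absurd (Finset.mem_univ _) hcon
        rw [h4]
        simp only [hh, hγdef]
        rw [h3]
        simp only [map_add, map_sub, RCLike.ofReal_re]
        ring
    | mul s t _ _ hs ht =>
      obtain ⟨n1, c1, hc1, h1⟩ := hs
      obtain ⟨n2, c2, hc2, h2⟩ := ht
      refine ⟨n1 + n2, c1 * c2, mul_ne_zero hc1 hc2, ?_⟩
      intro z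
      rw [Units.val_mul, Module.End.mul_apply]
      refine ⟨by rw [(h1 _).1, (h2 _).1]; ring, ?_⟩
      intro hz
      have hz2 : l ((t : V →ₗ[𝕜] V) z) ≠ 0 := by
        rw [(h2 z).1]; exact mul_ne_zero hc2 hz
      rw [(h1 _).2 hz2, (h2 _).2 hz]
      simp only [Pi.add_apply, Nat.cast_add, add_mul, Finset.sum_add_distrib]
      ring
  by_cases hlx : l x = 0
  · -- the orbit lies in the kernel
    have hsub : orbit S x ⊆ (LinearMap.ker l : Set V) := by
      rintro y ⟨s, hs, rfl⟩
      obtain ⟨n, c, hc, h1⟩ := hact s hs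
      rw [SetLike.mem_coe, LinearMap.mem_ker, (h1 x).1, hlx, mul_zero]
    have hcl : IsClosed (LinearMap.ker l : Set V) := (LinearMap.ker l).closed_of_finiteDimensional
    have h2 : y0 ∈ closure (orbit S x) := interior_subset hy0
    exact hly0 (LinearMap.mem_ker.mp (closure_minimal hsub hcl h2))
  · -- the values of `h` on the orbit form a discrete set
    set B : ℝ := h y0 + 1 with hB
    set P : Set ℝ := (fun y => h x + y) '' {y : ℝ | y < B - h x ∧ ∃ n : W → ℕ,
      y = ∑ i, (n i : ℝ) * γ i} with hP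
    have hPfin : P.Finite := (finite_sums γ hγ _).image _
    -- move `y0` in the direction `e`
    let y : ℝ → V := fun s => y0 + ((s : 𝕜) * l y0) • e
    have hly : ∀ s, l (y s) = l y0 := by
      intro s
      simp only [y, map_add, map_smul, hle, smul_zero, add_zero]
    have hhy : ∀ s, h (y s) = h y0 + s := by
      intro s
      simp only [hh]
      rw [hly]
      simp only [y, map_add, map_smul, hg, smul_eq_mul, mul_one]
      rw [add_div, mul_div_assoc, div_self hly0, mul_one, map_add, RCLike.ofReal_re]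
    have hyc : Continuous y := by
      have : Continuous fun s : ℝ => ((s : 𝕜)) := RCLike.continuous_ofReal
      fun_prop
    have hopen : IsOpen (y ⁻¹' U) := hUo.preimage hyc
    have h0 : (0 : ℝ) ∈ y ⁻¹' U := by
      simp only [Set.mem_preimage, y]
      simpa using hy0
    obtain ⟨ε, hε, hball⟩ := Metric.isOpen_iff.mp hopen 0 h0
    -- choose a small `s` with `h (y s)` outside of `P`
    obtain ⟨s, ⟨hs0, hs1⟩, hsP⟩ : ∃ s ∈ Set.Ioo (0 : ℝ) (min ε 1), h y0 + s ∉ P := by
      have hinf : (Set.Ioo (0 : ℝ) (min ε 1)).Infinite := Set.Ioo_infinite (by positivity)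
      have hfin : ((fun z => z - h y0) '' P).Finite := hPfin.image _
      obtain ⟨s, hs, hs'⟩ := hinf.exists_notMem_finite hfin
      refine ⟨s, hs, fun hcon => hs' ⟨_, hcon, by ring⟩⟩
    have hyU : y s ∈ U := hball (by
      rw [Metric.mem_ball, Real.dist_eq, sub_zero, abs_of_pos hs0]
      exact hs1.trans_le (min_le_left _ _))
    have hmem : y s ∈ closure (orbit S x) := interior_subset hyU
    -- a neighbourhood of `y s` which misses the orbit
    have hcont : ContinuousAt h (y s) := by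
      have : ContinuousAt (fun z => g z / l z) (y s) := by
        apply ContinuousAt.div hgc.continuousAt hlc.continuousAt
        rw [hly]; exact hly0
      exact RCLike.continuous_re.continuousAt.comp this
    have hN1 : ∀ᶠ z in nhds (y s), h z < B := by
      apply hcont.eventually_lt continuousAt_const
      rw [hhy, hB]
      have := min_le_right ε 1
      linarith
    have hN2 : ∀ᶠ z in nhds (y s), h z ∉ P := by
      have : Pᶜ ∈ nhds (h (y s)) := hPfin.isClosed.isOpen_compl.mem_nhds (by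
        rw [hhy]; exact hsP)
      exact hcont.eventually this
    obtain ⟨z, ⟨hz1, hz2⟩, hz3⟩ := (mem_closure_iff_nhds.mp hmem _ (hN1.and hN2))
    obtain ⟨t, ht, rfl⟩ := hz3
    obtain ⟨n, c, hc, h1⟩ := hact t ht
    have h2 := (h1 x).2 hlx
    apply hz2
    rw [hP]
    refine ⟨_, ⟨?_, n, rfl⟩, h2.symm⟩
    rw [h2] at hz1
    linarith

end Pool.Agent.Q224.RY
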