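import Pool.Agent.Q224.RY.A
set_option autoImplicit false

/-! Dimension one: coarse density along a ray makes the closure of the semigroup a group. -/

open Module Set Filter

namespace Pool.Agent.Q224.RY

variable {𝕜 : Type*} [RCLike 𝕜]

/-- polylogarithms grow slower than `N` -/
lemma polylog (A B : ℝ) (k : ℕ) : ∃ N : ℕ, 1 ≤ N ∧ (A * Real.log N + B) ^ k < N := by
  have h1 := Real.tendsto_pow_log_div_mul_add_atTop 1 0 k one_ne_zero
  have h2 : Tendsto (fun n : ℕ => Real.log n ^ k / (1 * (n : ℝ) + 0)) atTop (nhds 0) :=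
    h1.comp tendsto_natCast_atTop_atTop
  set c : ℝ := (|A| + |B| + 1) ^ k with hc
  have hcpos : 0 < c := by positivity
  have h3 : ∀ᶠ n : ℕ in atTop, Real.log n ^ k / (1 * (n : ℝ) + 0) < 1 / c :=
    h2.eventually_lt_const (by positivity)
  have h4 : ∀ᶠ n : ℕ in atTop, 1 ≤ Real.log n :=
    (Real.tendsto_log_atTop.comp tendsto_natCast_atTop_atTop).eventually_ge_atTop 1
  obtain ⟨n, h5, h6, h7⟩ := (h3.and (h4.and (eventually_ge_atTop 1))).exists
  refine ⟨n, h7, ?_⟩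
  have hn : (0 : ℝ) < n := by exact_mod_cast h7
  rw [one_mul, add_zero, div_lt_div_iff₀ hn hcpos, one_mul] at h5
  have h8 : |A * Real.log n + B| ≤ (|A| + |B| + 1) * Real.log n := by
    calc |A * Real.log n + B| ≤ |A * Real.log n| + |B| := abs_add_le _ _
      _ = |A| * Real.log n + |B| * 1 := by
          rw [abs_mul, abs_of_nonneg (by linarith : 0 ≤ Real.log (n : ℝ)), mul_one]
      _ ≤ |A| * Real.log n + |B| * Real.log n := by gcongr
      _ ≤ (|A| + |B| + 1) * Real.log n := by nlinarith [abs_nonneg A, abs_nonneg B]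
  calc (A * Real.log n + B) ^ k ≤ |(A * Real.log n + B) ^ k| := le_abs_self _
    _ = |A * Real.log n + B| ^ k := abs_pow _ _
    _ ≤ ((|A| + |B| + 1) * Real.log n) ^ k := by gcongr
    _ = Real.log n ^ k * c := by rw [mul_pow, hc]; ring
    _ < n := h5

lemma one_le_prod_real {ι : Type*} (s : Finset ι) (f : ι → ℝ) (h : ∀ i, 1 ≤ f i) :
    1 ≤ ∏ i ∈ s, f i := by
  calc (1 : ℝ) = ∏ _i ∈ s, (1 : ℝ) := by simp
    _ ≤ ∏ i ∈ s, f i := Finset.prod_le_prod (fun _ _ => zero_le_one) (fun i _ => h i)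

/-- the moduli of the elements of the semigroup generated by `F` -/
lemma moduli {F : Set 𝕜} [Fintype F] {c : 𝕜} (hc : c ∈ Subsemigroup.closure F) :
    ∃ n : F → ℕ, ‖c‖ = ∏ f : F, ‖(f : 𝕜)‖ ^ n f := by
  classical
  induction hc using Subsemigroup.closure_induction with
  | mem c hc =>
    refine ⟨Pi.single ⟨c, hc⟩ 1, ?_⟩
    rw [Finset.prod_eq_single (⟨c, hc⟩ : F)]
    · simp
    · intro b _ hb
      simp [Pi.single_eq_of_ne hb]
    · intro hcon
      exact absurd (Finset.mem_univ _) hcon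
  | mul x y _ _ hx hy =>
    obtain ⟨n1, h1⟩ := hx
    obtain ⟨n2, h2⟩ := hy
    refine ⟨n1 + n2, ?_⟩
    rw [norm_mul, h1, h2, ← Finset.prod_mul_distrib]
    exact Finset.prod_congr rfl fun f _ => by rw [Pi.add_apply, pow_add]

/-- If the semigroup is coarsely dense along a ray, then some generator has modulus `< 1`. -/
lemma exists_lt_one {F : Set 𝕜} (hF : F.Finite) {μ : 𝕜} (hμ : μ ≠ 0) {D : ℝ} (hD : 0 < D)
    (hcd : ∀ t : ℝ, 0 < t → ∃ c ∈ Subsemigroup.closure F, ‖(t : 𝕜) * μ - c‖ < D) :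
    ∃ f ∈ F, ‖f‖ < 1 := by
  classical
  by_contra hcon
  push Not at hcon
  have : Fintype F := hF.fintype
  have hμ' : 0 < ‖μ‖ := norm_pos_iff.mpr hμ
  -- a lower bound for the moduli greater than one
  obtain ⟨ρ, hρ, hρF⟩ : ∃ ρ : ℝ, 1 < ρ ∧ ∀ f ∈ F, 1 < ‖f‖ → ρ ≤ ‖f‖ := by
    by_cases hne : (hF.toFinset.filter (fun f => 1 < ‖f‖)).Nonempty
    · obtain ⟨g, hg, hmin⟩ := Finset.exists_min_image _ (fun f => ‖f‖) hne
      simp only [Finset.mem_filter, Set.Finite.mem_toFinset] at hg hmin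
      exact ⟨‖g‖, hg.2, fun f hf hf' => hmin f ⟨hf, hf'⟩⟩
    · rw [Finset.not_nonempty_iff_eq_empty, Finset.filter_eq_empty_iff] at hne
      refine ⟨2, by norm_num, fun f hf hf' => absurd hf' (hne (by simpa using hf))⟩
  have hlρ : 0 < Real.log ρ := Real.log_pos hρ
  -- points on the ray
  let t : ℕ → ℝ := fun j => 2 * D * (j + 1) / ‖μ‖
  have ht : ∀ j, 0 < t j := fun j => by positivity
  choose c hcC hcD using fun j => hcd (t j) (ht j)
  have hnorm : ∀ j, |2 * D * (j + 1) - ‖c j‖| < D := by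
    intro j
    have h1 : ‖((t j : ℝ) : 𝕜) * μ‖ = 2 * D * (j + 1) := by
      rw [norm_mul, RCLike.norm_ofReal, abs_of_pos (ht j)]
      simp only [t]
      field_simp
    have h2 := abs_norm_sub_norm_le (((t j : ℝ) : 𝕜) * μ) (c j)
    rw [h1] at h2
    exact h2.trans_lt (hcD j)
  choose n hn using fun j => moduli (hcC j)
  let m : ℕ → F → ℕ := fun j f => if 1 < ‖(f : 𝕜)‖ then n j f else 0
  have hm : ∀ j, ‖c j‖ = ∏ f : F, ‖(f : 𝕜)‖ ^ m j f := by
    intro j
    rw [hn j]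
    refine Finset.prod_congr rfl fun f _ => ?_
    simp only [m]
    split_ifs with h
    · rfl
    · have : ‖(f : 𝕜)‖ = 1 := le_antisymm (not_lt.mp h) (hcon f f.2)
      rw [this, one_pow, one_pow]
  have hinj : Function.Injective m := by
    intro i j hij
    have h1 : ‖c i‖ = ‖c j‖ := by rw [hm, hm, hij]
    have h2 := hnorm i
    have h3 := hnorm j
    rw [h1] at h2
    rw [abs_lt] at h2 h3
    have h4 : 2 * D * ((i : ℝ) - j) < 2 * D := by nlinarith
    have h5 : 2 * D * ((j : ℝ) - i) < 2 * D := by nlinarith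
    have h6 : (i : ℝ) - j < 1 := by
      have := (mul_lt_mul_iff_right₀ (by positivity : 0 < 2 * D)).mp (by rwa [mul_one] : 2 * D * ((i : ℝ) - j) < 2 * D * 1)
      exact this
    have h7 : (j : ℝ) - i < 1 := by
      have := (mul_lt_mul_iff_right₀ (by positivity : 0 < 2 * D)).mp (by rwa [mul_one] : 2 * D * ((j : ℝ) - i) < 2 * D * 1)
      exact this
    have h8 : i < j + 1 := by
      have : (i : ℝ) < (j : ℝ) + 1 := by linarith
      exact_mod_cast this
    have h9 : j < i + 1 := by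
      have : (j : ℝ) < (i : ℝ) + 1 := by linarith
      exact_mod_cast this
    omega
  -- bound for the exponents
  have hbound : ∀ j f, (m j f : ℝ) ≤ Real.log (2 * D * (j + 1) + D) / Real.log ρ := by
    intro j f
    have hge : ∀ g : F, 1 ≤ ‖(g : 𝕜)‖ ^ m j g := fun g => one_le_pow₀ (hcon g g.2)
    by_cases hf : 1 < ‖(f : 𝕜)‖
    · have h1 : ρ ^ m j f ≤ ‖c j‖ := by
        rw [hm j]
        calc ρ ^ m j f ≤ ‖(f : 𝕜)‖ ^ m j f := by
              gcongr; exact hρF f f.2 hf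
          _ ≤ ∏ f : F, ‖(f : 𝕜)‖ ^ m j f := by
              rw [← Finset.mul_prod_erase _ _ (Finset.mem_univ f)]
              apply le_mul_of_one_le_right (by positivity)
              exact one_le_prod_real _ _ hge
      have h2 : ‖c j‖ ≤ 2 * D * (j + 1) + D := by
        have := hnorm j
        rw [abs_lt] at this
        linarith
      have h3 : Real.log (ρ ^ m j f) ≤ Real.log (2 * D * (j + 1) + D) :=
        Real.log_le_log (by positivity) (h1.trans h2)
      rw [Real.log_pow] at h3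
      rw [le_div_iff₀ hlρ]
      exact h3
    · simp only [m, if_neg hf, Nat.cast_zero]
      have h1 : 1 ≤ ‖c j‖ := by
        rw [hm j]
        exact one_le_prod_real _ _ hge
      have h2 : ‖c j‖ ≤ 2 * D * (j + 1) + D := by
        have := hnorm j
        rw [abs_lt] at this
        linarith
      exact div_nonneg (Real.log_nonneg (h1.trans h2)) hlρ.le
  -- counting
  obtain ⟨N, hN1, hN⟩ := polylog (1 / Real.log ρ) (Real.log (5 * D) / Real.log ρ + 1)
    (Fintype.card F)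
  set L : ℕ := ⌊Real.log (2 * D * (N + 1) + D) / Real.log ρ⌋₊ with hL
  have hNpos : (0 : ℝ) < N := by exact_mod_cast hN1
  have hmaps : ∀ j ∈ Finset.range N, m j ∈ Finset.Iic (fun _ : F => L) := by
    intro j hj
    rw [Finset.mem_Iic]
    intro f
    apply Nat.le_floor
    refine (hbound j f).trans ?_
    have : (j : ℝ) ≤ N := by exact_mod_cast (Finset.mem_range.mp hj).le
    gcongr
  have hcard := Finset.card_le_card_of_injOn m hmaps hinj.injOn
  rw [Finset.card_range] at hcard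
  have hcard2 : (Finset.Iic (fun _ : F => L)).card = (L + 1) ^ Fintype.card F := by
    rw [Pi.card_Iic]
    simp
  rw [hcard2] at hcard
  have h0 : 0 ≤ Real.log (2 * D * (N + 1) + D) / Real.log ρ :=
    le_trans (Nat.cast_nonneg _) (hbound N (Classical.choice (by
      obtain ⟨c, hc, _⟩ := hcd 1 one_pos
      have hne : (F : Set 𝕜).Nonempty := by
        by_contra hemp
        rw [Set.not_nonempty_iff_eq_empty] at hemp
        rw [hemp, Subsemigroup.closure_empty] at hc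
        exact hc
      exact hne.to_subtype)))
  have hLle : (L : ℝ) + 1 ≤ 1 / Real.log ρ * Real.log N + (Real.log (5 * D) / Real.log ρ + 1) := by
    have h1 : (L : ℝ) ≤ Real.log (2 * D * (N + 1) + D) / Real.log ρ := Nat.floor_le h0
    have h2 : Real.log (2 * D * (N + 1) + D) ≤ Real.log (5 * D) + Real.log N := by
      rw [← Real.log_mul (by positivity) (by positivity)]
      apply Real.log_le_log (by positivity)
      have : (1 : ℝ) ≤ N := by exact_mod_cast hN1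
      nlinarith
    have h3 : Real.log (2 * D * (N + 1) + D) / Real.log ρ ≤
        (Real.log (5 * D) + Real.log N) / Real.log ρ := by gcongr
    have h4 : (Real.log (5 * D) + Real.log N) / Real.log ρ =
        1 / Real.log ρ * Real.log N + Real.log (5 * D) / Real.log ρ := by ring
    linarith
  have hfin : (N : ℝ) ≤ (1 / Real.log ρ * Real.log N + (Real.log (5 * D) / Real.log ρ + 1)) ^
      Fintype.card F := by
    calc (N : ℝ) ≤ ((L : ℝ) + 1) ^ Fintype.card F := by exact_mod_cast hcard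
      _ ≤ _ := by gcongr
  linarith

/-- If the semigroup is coarsely dense along a ray, then some element has modulus `> 1`. -/
lemma exists_gt_one {C : Subsemigroup 𝕜} {μ : 𝕜} (hμ : μ ≠ 0) {D : ℝ} (hD : 0 < D)
    (hcd : ∀ t : ℝ, 0 < t → ∃ c ∈ C, ‖(t : 𝕜) * μ - c‖ < D) :
    ∃ f ∈ C, 1 < ‖f‖ := by
  have hμ' : 0 < ‖μ‖ := norm_pos_iff.mpr hμ
  obtain ⟨c, hc, hcD⟩ := hcd ((1 + D) / ‖μ‖) (by positivity)
  refine ⟨c, hc, ?_⟩
  have h1 : ‖(((1 + D) / ‖μ‖ : ℝ) : 𝕜) * μ‖ = 1 + D := by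
    rw [norm_mul, RCLike.norm_ofReal, abs_of_pos (by positivity)]
    field_simp
  have h2 := norm_sub_norm_le ((((1 + D) / ‖μ‖ : ℝ) : 𝕜) * μ) c
  rw [h1] at h2
  linarith

lemma floor_strict {c : ℝ} (hc : 1 ≤ c) : StrictMono (fun j : ℕ => ⌊(j : ℝ) * c⌋₊) := by
  apply strictMono_nat_of_lt_succ
  intro j
  have h1 : ⌊(j : ℝ) * c⌋₊ + 1 ≤ ⌊((j + 1 : ℕ) : ℝ) * c⌋₊ := by
    rw [← Nat.floor_add_one (by positivity)]
    apply Nat.floor_le_floor
    push_cast
    linarith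
  exact h1

/-- powers of two numbers, one outside and one inside of the unit circle, or both on it, come
close to one -/
lemma near_one {x y : 𝕜} (h : (1 < ‖x‖ ∧ ‖y‖ < 1 ∧ y ≠ 0) ∨ (‖x‖ = 1 ∧ ‖y‖ = 1)) {ε : ℝ}
    (hε : 0 < ε) : ∃ n m : ℕ, 1 ≤ n ∧ 1 ≤ m ∧ ‖x ^ n * y ^ m - 1‖ < ε := by
  -- two strictly increasing sequences of exponents for which the products stay bounded
  obtain ⟨N, M, r, R, hN, hM, hr, hb⟩ : ∃ (N M : ℕ → ℕ) (r R : ℝ), StrictMono N ∧ StrictMono M ∧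
      0 < r ∧ ∀ j, r ≤ ‖x ^ N j * y ^ M j‖ ∧ ‖x ^ N j * y ^ M j‖ ≤ R := by
    rcases h with ⟨hx, hy, hy0⟩ | ⟨hx, hy⟩
    · have hy' : 0 < ‖y‖ := norm_pos_iff.mpr hy0
      set α := Real.log ‖x‖ with hα
      set β := -Real.log ‖y‖ with hβ
      have hα0 : 0 < α := Real.log_pos hx
      have hβ0 : 0 < β := by
        have := Real.log_neg hy' hy
        linarith
      refine ⟨fun j => ⌊(j : ℝ) * ((α + β) / α)⌋₊, fun j => ⌊(j : ℝ) * ((α + β) / β)⌋₊,
        Real.exp (-α), Real.exp β, floor_strict ?_, floor_strict ?_, Real.exp_pos _, ?_⟩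
      · rw [le_div_iff₀ hα0]; linarith
      · rw [le_div_iff₀ hβ0]; linarith
      · intro j
        set a := ⌊(j : ℝ) * ((α + β) / α)⌋₊ with ha
        set b := ⌊(j : ℝ) * ((α + β) / β)⌋₊ with hb
        have h1 : ‖x ^ a * y ^ b‖ = Real.exp (a * α - b * β) := by
          rw [norm_mul, norm_pow, norm_pow, sub_eq_add_neg, Real.exp_add, hα, hβ]
          congr 1
          · rw [mul_comm, ← Real.rpow_natCast, Real.rpow_def_of_pos (by linarith)]
          · rw [mul_neg, neg_neg, mul_comm, ← Real.rpow_natCast, Real.rpow_def_of_pos hy']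
        have hja : (j : ℝ) * ((α + β) / α) * α = j * (α + β) := by field_simp
        have hjb : (j : ℝ) * ((α + β) / β) * β = j * (α + β) := by field_simp
        have h2 : (a : ℝ) * α ≤ j * (α + β) := by
          rw [← hja]
          exact mul_le_mul_of_nonneg_right (Nat.floor_le (by positivity)) hα0.le
        have h3 : j * (α + β) ≤ (a + 1 : ℝ) * α := by
          rw [← hja]
          exact mul_le_mul_of_nonneg_right (Nat.lt_floor_add_one _).le hα0.le
        have h4 : (b : ℝ) * β ≤ j * (α + β) := by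
          rw [← hjb]
          exact mul_le_mul_of_nonneg_right (Nat.floor_le (by positivity)) hβ0.le
        have h5 : j * (α + β) ≤ (b + 1 : ℝ) * β := by
          rw [← hjb]
          exact mul_le_mul_of_nonneg_right (Nat.lt_floor_add_one _).le hβ0.le
        rw [h1]
        constructor
        · apply Real.exp_le_exp.mpr
          linarith
        · apply Real.exp_le_exp.mpr
          linarith
    · refine ⟨id, id, 1, 1, strictMono_id, strictMono_id, one_pos, ?_⟩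
      intro j
      rw [norm_mul, norm_pow, norm_pow, hx, hy]
      simp
  set u : ℕ → 𝕜 := fun j => x ^ N j * y ^ M j with hu
  have hcomp : IsCompact (Metric.closedBall (0 : 𝕜) R) := isCompact_closedBall _ _
  obtain ⟨a, _, φ, hφ, hlim⟩ := hcomp.tendsto_subseq (x := u) (fun j => by
    rw [mem_closedBall_zero_iff]; exact (hb j).2)
  have hane : a ≠ 0 := by
    have h1 : Tendsto (fun j => ‖u (φ j)‖) atTop (nhds ‖a‖) := hlim.norm
    have h2 : r ≤ ‖a‖ := ge_of_tendsto' h1 fun j => (hb (φ j)).1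
    exact norm_pos_iff.mp (hr.trans_le h2)
  have hlim2 : Tendsto (fun j => u (φ (j + 1))) atTop (nhds a) :=
    hlim.comp (tendsto_add_atTop_nat 1)
  have hratio : Tendsto (fun j => u (φ (j + 1)) / u (φ j)) atTop (nhds 1) := by
    have := hlim2.div hlim hane
    rwa [div_self hane] at this
  rw [Metric.tendsto_atTop] at hratio
  obtain ⟨j, hj⟩ := hratio ε hε
  have h1 := hj j le_rfl
  rw [dist_eq_norm] at h1
  have hlt : φ j < φ (j + 1) := hφ (Nat.lt_succ_self j)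
  have hNlt := hN hlt
  have hMlt := hM hlt
  have hune : u (φ j) ≠ 0 := norm_pos_iff.mp (hr.trans_le (hb (φ j)).1)
  refine ⟨N (φ (j + 1)) - N (φ j), M (φ (j + 1)) - M (φ j), by omega, by omega, ?_⟩
  have h2 : x ^ (N (φ (j + 1)) - N (φ j)) * y ^ (M (φ (j + 1)) - M (φ j)) =
      u (φ (j + 1)) / u (φ j) := by
    rw [eq_div_iff hune]
    simp only [hu]
    calc _ = (x ^ (N (φ (j + 1)) - N (φ j)) * x ^ (N (φ j))) *
          (y ^ (M (φ (j + 1)) - M (φ j)) * y ^ (M (φ j))) := by ring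
      _ = _ := by
        rw [← pow_add, ← pow_add, Nat.sub_add_cancel hNlt.le, Nat.sub_add_cancel hMlt.le]
  rw [h2]
  exact h1

/-- In a semigroup with elements outside and inside of the unit circle all inverses are limits. -/
lemma inv_mem_closure {C : Subsemigroup 𝕜} (h0 : ∀ c ∈ C, c ≠ 0) {p q : 𝕜} (hp : p ∈ C)
    (hp1 : 1 < ‖p‖) (hq : q ∈ C) (hq1 : ‖q‖ < 1) {c : 𝕜} (hc : c ∈ C) :
    c⁻¹ ∈ closure (C : Set 𝕜) := by
  have hpow : ∀ (x : 𝕜), x ∈ C → ∀ n : ℕ, x ^ (n + 1) ∈ C := by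
    intro x hx n
    induction n with
    | zero => simpa using hx
    | succ n ih =>
      rw [pow_succ]
      exact C.mul_mem ih hx
  -- products with a possibly missing factor
  have hprod : ∀ x y : 𝕜, x ∈ C → y ∈ C → ∀ n m : ℕ, 1 ≤ m → x ^ n * y ^ m ∈ C := by
    intro x y hx hy n m hm
    obtain ⟨m', rfl⟩ : ∃ m', m = m' + 1 := ⟨m - 1, by omega⟩
    rcases n with _ | n
    · rw [pow_zero, one_mul]; exact hpow y hy m'
    · exact C.mul_mem (hpow x hx n) (hpow y hy m')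
  have hcne := h0 c hc
  have hcn : 0 < ‖c‖ := norm_pos_iff.mpr hcne
  rw [Metric.mem_closure_iff]
  intro ε hε
  rcases lt_trichotomy ‖c‖ 1 with hlt | heq | hgt
  · obtain ⟨n, m, hn, hm, hnm⟩ := near_one (x := p) (y := c) (Or.inl ⟨hp1, hlt, hcne⟩)
      (ε := ε * ‖c‖) (by positivity)
    obtain ⟨m', rfl⟩ : ∃ m', m = m' + 1 := ⟨m - 1, by omega⟩
    refine ⟨c ^ m' * p ^ n, hprod c p hc hp m' n hn, ?_⟩
    rw [dist_comm, dist_eq_norm]
    have : c ^ m' * p ^ n - c⁻¹ = (p ^ n * c ^ (m' + 1) - 1) * c⁻¹ := by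
      field_simp
      ring
    rw [this, norm_mul, norm_inv]
    calc ‖p ^ n * c ^ (m' + 1) - 1‖ * ‖c‖⁻¹ < ε * ‖c‖ * ‖c‖⁻¹ := by gcongr
      _ = ε := by field_simp
  · obtain ⟨n, m, hn, hm, hnm⟩ := near_one (x := c) (y := c) (Or.inr ⟨heq, heq⟩) hε
    obtain ⟨m', rfl⟩ : ∃ m', m = m' + 1 := ⟨m - 1, by omega⟩
    refine ⟨c ^ m' * c ^ n, hprod c c hc hc m' n hn, ?_⟩
    rw [dist_comm, dist_eq_norm]
    have : c ^ m' * c ^ n - c⁻¹ = (c ^ n * c ^ (m' + 1) - 1) * c⁻¹ := by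
      field_simp
      ring
    rw [this, norm_mul, norm_inv, heq]
    simpa using hnm
  · obtain ⟨n, m, hn, hm, hnm⟩ := near_one (x := c) (y := q) (Or.inl ⟨hgt, hq1, h0 q hq⟩)
      (ε := ε * ‖c‖) (by positivity)
    obtain ⟨n', rfl⟩ : ∃ n', n = n' + 1 := ⟨n - 1, by omega⟩
    refine ⟨c ^ n' * q ^ m, hprod c q hc hq n' m hm, ?_⟩
    rw [dist_comm, dist_eq_norm]
    have : c ^ n' * q ^ m - c⁻¹ = (c ^ (n' + 1) * q ^ m - 1) * c⁻¹ := by
      field_simp
      ring
    rw [this, norm_mul, norm_inv]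
    calc ‖c ^ (n' + 1) * q ^ m - 1‖ * ‖c‖⁻¹ < ε * ‖c‖ * ‖c‖⁻¹ := by gcongr
      _ = ε := by field_simp

lemma mul_mem_closure {C : Subsemigroup 𝕜} {x y : 𝕜} (hx : x ∈ closure (C : Set 𝕜))
    (hy : y ∈ closure (C : Set 𝕜)) : x * y ∈ closure (C : Set 𝕜) :=
  C.topologicalClosure.mul_mem hx hy

lemma inv_mem_closure' {C : Subsemigroup 𝕜}
    (hinv : ∀ c ∈ C, c⁻¹ ∈ closure (C : Set 𝕜)) {z : 𝕜} (hz : z ∈ closure (C : Set 𝕜))
    (hz0 : z ≠ 0) : z⁻¹ ∈ closure (C : Set 𝕜) := by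
  have h1 : ContinuousAt (fun w : 𝕜 => w⁻¹) z := continuousAt_inv₀ hz0
  have h2 : MapsTo (fun w : 𝕜 => w⁻¹) (C : Set 𝕜) (closure (C : Set 𝕜)) := fun c hc => hinv c hc
  have h3 : z⁻¹ ∈ closure (closure (C : Set 𝕜)) :=
    h1.continuousWithinAt.mem_closure hz h2
  rwa [closure_closure] at h3

/-- The main lemma in dimension one. -/
theorem core {F : Set 𝕜} (hF : F.Finite) (h0 : ∀ f ∈ F, f ≠ 0) {μ : 𝕜} (hμ : μ ≠ 0) {D : ℝ}
    (hD : 0 < D)
    (hcd : ∀ t : ℝ, 0 < t → ∃ c ∈ Subsemigroup.closure F, ‖(t : 𝕜) * μ - c‖ < D) :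
    (∀ z ∈ closure (Subsemigroup.closure F : Set 𝕜), z ≠ 0 →
      z⁻¹ ∈ closure (Subsemigroup.closure F : Set 𝕜)) ∧
    (∀ ν : 𝕜, (∀ t : ℝ, 0 < t → ∃ c ∈ Subsemigroup.closure F, ‖(t : 𝕜) * ν - c‖ < D) →
      ∀ s : ℝ, 0 < s → (s : 𝕜) * (ν / μ) ∈ closure (Subsemigroup.closure F : Set 𝕜)) := by
  set C := Subsemigroup.closure F with hC
  have hC0 : ∀ c ∈ C, c ≠ 0 := by
    intro c hc
    rw [hC] at hc
    induction hc using Subsemigroup.closure_induction with
    | mem c hc => exact h0 c hc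
    | mul x y _ _ hx hy => exact mul_ne_zero hx hy
  obtain ⟨q, hqF, hq1⟩ := exists_lt_one hF hμ hD hcd
  have hq : q ∈ C := Subsemigroup.subset_closure hqF
  obtain ⟨p, hp, hp1⟩ := exists_gt_one hμ hD hcd
  have hinv : ∀ c ∈ C, c⁻¹ ∈ closure (C : Set 𝕜) := fun c hc =>
    inv_mem_closure hC0 hp hp1 hq hq1 hc
  refine ⟨fun z hz hz0 => inv_mem_closure' hinv hz hz0, ?_⟩
  intro ν hν s hs
  have hμ' : 0 < ‖μ‖ := norm_pos_iff.mpr hμ
  rw [← closure_closure, Metric.mem_closure_iff]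
  intro ε hε
  -- a large `t`
  set t : ℝ := (D + (‖μ‖ * D + s * ‖ν‖ * D) / (‖μ‖ * ε) + 1) / ‖μ‖ with ht
  have ht0 : 0 < t := by positivity
  obtain ⟨c1, hc1, hd1⟩ := hcd t ht0
  obtain ⟨c2, hc2, hd2⟩ := hν (s * t) (by positivity)
  refine ⟨c2 * c1⁻¹, mul_mem_closure (subset_closure hc2) (hinv c1 hc1), ?_⟩
  have hc1n : t * ‖μ‖ - D < ‖c1‖ := by
    have h1 : ‖((t : ℝ) : 𝕜) * μ‖ = t * ‖μ‖ := by
      rw [norm_mul, RCLike.norm_ofReal, abs_of_pos ht0]
    have h2 := norm_sub_norm_le (((t : ℝ) : 𝕜) * μ) c1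
    rw [h1] at h2
    linarith
  have htμ : t * ‖μ‖ - D = (‖μ‖ * D + s * ‖ν‖ * D) / (‖μ‖ * ε) + 1 := by
    rw [ht]; field_simp; ring
  have hpos : 0 ≤ (‖μ‖ * D + s * ‖ν‖ * D) / (‖μ‖ * ε) := by positivity
  have hc1pos : 0 < ‖c1‖ := by linarith
  have hc1ne : c1 ≠ 0 := norm_pos_iff.mp hc1pos
  rw [dist_eq_norm]
  have h3 : (s : 𝕜) * (ν / μ) - c2 * c1⁻¹ =
      (μ * (((s * t : ℝ) : 𝕜) * ν - c2) - (s : 𝕜) * ν * (((t : ℝ) : 𝕜) * μ - c1)) / (μ * c1) := by
    push_cast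
    field_simp
    ring
  rw [h3, norm_div, norm_mul μ c1]
  rw [div_lt_iff₀ (by positivity)]
  have h4 : ‖μ * (((s * t : ℝ) : 𝕜) * ν - c2) - (s : 𝕜) * ν * (((t : ℝ) : 𝕜) * μ - c1)‖ ≤
      ‖μ‖ * D + s * ‖ν‖ * D := by
    refine (norm_sub_le _ _).trans ?_
    rw [norm_mul, norm_mul, norm_mul, RCLike.norm_ofReal, abs_of_pos hs]
    gcongr
  have h5 : (‖μ‖ * D + s * ‖ν‖ * D) < ε * (‖μ‖ * ‖c1‖) := by
    have h6 : (‖μ‖ * D + s * ‖ν‖ * D) / (‖μ‖ * ε) < ‖c1‖ := by linarith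
    rw [div_lt_iff₀ (by positivity)] at h6
    linarith
  linarith

end Pool.Agent.Q224.RY
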