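import Pool.Agent.Q224.RY.B
set_option autoImplicit false

/-! Dimension at most one: finitely many rays force somewhere dense orbits. -/

open Module Set Filter

namespace Pool.Agent.Q224.RY

variable {𝕜 : Type*} [RCLike 𝕜] {V : Type*} [NormedAddCommGroup V] [NormedSpace 𝕜 V]

/-- From semigroups of scalars to one-dimensional spaces. -/
theorem transfer (hdim : finrank 𝕜 V = 1) (Z : Set 𝕜) (hZ : Z.Finite) (h1Z : (1 : 𝕜) ∈ Z)
    (hZ0 : (0 : 𝕜) ∉ Z)
    (H : ∀ C : Subsemigroup 𝕜, (∀ z ∈ Z, ∀ s : ℝ, 0 < s → (s : 𝕜) * z ∈ closure (C : Set 𝕜)) →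
      (∀ z ∈ closure (C : Set 𝕜), z ≠ 0 → z⁻¹ ∈ closure (C : Set 𝕜)) →
      (interior (closure (C : Set 𝕜))).Nonempty) : Forcing 𝕜 V := by
  have hfd : FiniteDimensional 𝕜 V := Module.finite_of_finrank_eq_succ hdim
  have hnt : Nontrivial V := Module.nontrivial_of_finrank_pos (R := 𝕜) (by omega)
  obtain ⟨w, hw⟩ := exists_ne (0 : V)
  refine ⟨(fun z => z • w) '' Z, hZ.image _, ?_, ?_⟩
  · rintro _ ⟨z, hz, rfl⟩
    exact smul_ne_zero (fun h => hZ0 (h ▸ hz)) hw
  rintro S ⟨F, hF, _, _, rfl⟩ ⟨v, D, hD, hcd⟩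
  have hwn : 0 < ‖w‖ := norm_pos_iff.mpr hw
  -- reformulation of coarse density
  have hcd' : ∀ z ∈ Z, ∀ t : ℝ, 0 < t → ∃ s ∈ Subsemigroup.closure F,
      ‖(t : 𝕜) • z • w - (s : V →ₗ[𝕜] V) v‖ < D := by
    intro z hz t ht
    have h1 : (t : 𝕜) • z • w ∈ ⋃ w' ∈ (fun z => z • w) '' Z, ray 𝕜 w' := by
      simp only [Set.mem_iUnion]
      exact ⟨z • w, ⟨z, hz, rfl⟩, t, ht, rfl⟩
    have h2 := hcd h1
    simp only [Set.mem_iUnion, Metric.mem_ball] at h2
    obtain ⟨a, ⟨s, hs, rfl⟩, h3⟩ := h2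
    rw [dist_eq_norm] at h3
    exact ⟨s, hs, h3⟩
  have hv : v ≠ 0 := by
    rintro rfl
    obtain ⟨s, hs, h1⟩ := hcd' 1 h1Z (D / ‖w‖) (by positivity)
    rw [map_zero, sub_zero, one_smul, norm_smul, RCLike.norm_ofReal,
      abs_of_pos (by positivity)] at h1
    field_simp at h1
    exact lt_irrefl _ h1
  have hvn : 0 < ‖v‖ := norm_pos_iff.mpr hv
  have hcoef := (finrank_eq_one_iff_of_nonzero' v hv).mp hdim
  choose coef hco using hcoef
  have hinj : ∀ a b : 𝕜, a • v = b • v → a = b := fun a b h => smul_left_injective 𝕜 hv h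
  let χ : LinearMap.GeneralLinearGroup 𝕜 V →ₙ* 𝕜 :=
    { toFun := fun s => coef ((s : V →ₗ[𝕜] V) v)
      map_mul' := by
        intro s t
        apply hinj
        rw [hco, Units.val_mul, Module.End.mul_apply]
        conv_lhs => rw [← hco ((t : V →ₗ[𝕜] V) v), map_smul, ← hco ((s : V →ₗ[𝕜] V) v)]
        rw [smul_smul, mul_comm] }
  have hχ : ∀ s : LinearMap.GeneralLinearGroup 𝕜 V, (s : V →ₗ[𝕜] V) v = χ s • v := fun s =>
    (hco _).symm
  have hmap : (Subsemigroup.closure F).map χ = Subsemigroup.closure (χ '' F) :=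
    MulHom.map_mclosure χ F
  set C := Subsemigroup.closure (χ '' F) with hC
  have hχC : ∀ s ∈ Subsemigroup.closure F, χ s ∈ C := by
    intro s hs
    rw [← hmap]
    exact ⟨s, hs, rfl⟩
  have hχ0 : ∀ s : LinearMap.GeneralLinearGroup 𝕜 V, χ s ≠ 0 := by
    intro s hs
    have h1 := hχ s
    rw [hs, zero_smul] at h1
    have h2 : ((s⁻¹ : LinearMap.GeneralLinearGroup 𝕜 V) : V →ₗ[𝕜] V) ((s : V →ₗ[𝕜] V) v) = v := by
      rw [← Module.End.mul_apply, ← Units.val_mul, inv_mul_cancel]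
      rfl
    rw [h1, map_zero] at h2
    exact hv h2.symm
  have hF0 : ∀ f ∈ χ '' F, f ≠ 0 := by
    rintro _ ⟨s, _, rfl⟩
    exact hχ0 s
  obtain ⟨μ, hμw⟩ : ∃ μ : 𝕜, μ • v = w := ⟨_, hco w⟩
  have hμ : μ ≠ 0 := by
    rintro rfl
    rw [zero_smul] at hμw
    exact hw hμw.symm
  have hcd2 : ∀ z ∈ Z, ∀ t : ℝ, 0 < t → ∃ c ∈ C, ‖(t : 𝕜) * (z * μ) - c‖ < D / ‖v‖ := by
    intro z hz t ht
    obtain ⟨s, hs, h1⟩ := hcd' z hz t ht
    refine ⟨χ s, hχC s hs, ?_⟩
    rw [hχ s, ← hμw, smul_smul, smul_smul, ← sub_smul, norm_smul] at h1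
    rw [lt_div_iff₀ hvn, ← mul_assoc]
    exact h1
  have hcdμ : ∀ t : ℝ, 0 < t → ∃ c ∈ C, ‖(t : 𝕜) * μ - c‖ < D / ‖v‖ := by
    intro t ht
    have := hcd2 1 h1Z t ht
    rwa [one_mul] at this
  obtain ⟨hinv, hratio⟩ := core (hF.image χ) hF0 hμ (div_pos hD hvn) hcdμ
  have hint := H C (by
    intro z hz s hs
    have h1 := hratio (z * μ) (hcd2 z hz) s hs
    rwa [mul_div_cancel_right₀ _ hμ] at h1) hinv
  -- transport to `V`
  refine ⟨v, ?_⟩
  obtain ⟨z0, hz0⟩ := hint
  have hbij : Function.Bijective (LinearMap.toSpanSingleton 𝕜 V v) := by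
    constructor
    · intro a b hab
      exact hinj a b (by simpa using hab)
    · intro x
      exact ⟨coef x, by simpa using hco x⟩
  let e : 𝕜 ≃ₗ[𝕜] V := LinearEquiv.ofBijective _ hbij
  have he : ∀ z, e z = z • v := fun z => by simp [e]
  let ec : 𝕜 ≃L[𝕜] V := e.toContinuousLinearEquiv
  have hec : ∀ z, ec z = z • v := fun z => he z
  have hCorb : ec '' (C : Set 𝕜) ⊆ orbit (Subsemigroup.closure F) v := by
    rintro _ ⟨c, hc, rfl⟩
    rw [SetLike.mem_coe, ← hmap] at hc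
    obtain ⟨s, hs, rfl⟩ := hc
    exact ⟨s, hs, by rw [hec, hχ s]⟩
  have h1 : ec '' interior (closure (C : Set 𝕜)) ⊆ closure (orbit (Subsemigroup.closure F) v) := by
    refine (Set.image_mono interior_subset).trans ?_
    refine (image_closure_subset_closure_image ec.continuous).trans ?_
    exact closure_mono hCorb
  have h2 : IsOpen (ec '' interior (closure (C : Set 𝕜))) :=
    ec.toHomeomorph.isOpenMap _ isOpen_interior
  exact ⟨ec z0, interior_maximal h1 h2 ⟨z0, hz0, rfl⟩⟩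

/-- the real case -/
theorem forcing_real {V : Type*} [NormedAddCommGroup V] [NormedSpace ℝ V]
    (hdim : finrank ℝ V = 1) : Forcing ℝ V := by
  refine transfer hdim {1} (Set.finite_singleton 1) rfl (by simp) ?_
  intro C hC _
  have h1 : Set.Ioi (0 : ℝ) ⊆ closure (C : Set ℝ) := by
    intro s hs
    have := hC 1 rfl s hs
    simpa using this
  exact ⟨1, interior_maximal h1 isOpen_Ioi (by simp)⟩

/-- the complex case -/
theorem forcing_complex {V : Type*} [NormedAddCommGroup V] [NormedSpace ℂ V]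
    (hdim : finrank ℂ V = 1) : Forcing ℂ V := by
  set ζ : ℂ := Complex.exp (((2 * Real.pi * Real.sqrt 2 : ℝ) : ℂ) * Complex.I) with hζ
  have hζ0 : ζ ≠ 0 := Complex.exp_ne_zero _
  refine transfer hdim {1, ζ} (Set.toFinite _) (by simp) (by simpa using hζ0.symm) ?_
  intro C hC hinv
  have hone : (1 : ℂ) ∈ closure (C : Set ℂ) := by
    have := hC 1 (by simp) 1 one_pos
    simpa using this
  have hz1 : ζ ∈ closure (C : Set ℂ) := by
    have := hC ζ (by simp) 1 one_pos
    simpa using this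
  have hpow : ∀ n : ℕ, ζ ^ n ∈ closure (C : Set ℂ) := by
    intro n
    induction n with
    | zero => simpa using hone
    | succ n ih =>
      rw [pow_succ]
      exact mul_mem_closure ih hz1
  have hzpow : ∀ n : ℤ, ζ ^ n ∈ closure (C : Set ℂ) := by
    intro n
    obtain ⟨m, rfl | rfl⟩ := Int.eq_nat_or_neg n
    · rw [zpow_natCast]; exact hpow m
    · rw [zpow_neg, zpow_natCast]
      exact hinv _ (hpow m) (pow_ne_zero _ hζ0)
  have hdense : Dense (AddSubgroup.closure {Real.sqrt 2, (1 : ℝ)} : Set ℝ) := by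
    rw [dense_addSubgroupClosure_pair_iff]
    simpa using irrational_sqrt_two
  have hall : ∀ z : ℂ, z ≠ 0 → z ∈ closure (C : Set ℂ) := by
    intro z hz
    let f : ℝ → ℂ := fun y => (‖z‖ : ℂ) * Complex.exp (((2 * Real.pi * y : ℝ) : ℂ) * Complex.I)
    have hf : Continuous f := by
      simp only [f]
      fun_prop
    have hmaps : f '' (AddSubgroup.closure {Real.sqrt 2, (1 : ℝ)} : Set ℝ) ⊆
        closure (C : Set ℂ) := by
      rintro _ ⟨y, hy, rfl⟩
      rw [SetLike.mem_coe, AddSubgroup.mem_closure_pair] at hy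
      obtain ⟨j, i, rfl⟩ := hy
      have h1 : Complex.exp (((2 * Real.pi * (j • Real.sqrt 2 + i • (1 : ℝ)) : ℝ) : ℂ) *
          Complex.I) = ζ ^ j := by
        rw [hζ, ← Complex.exp_int_mul]
        have : ((2 * Real.pi * (j • Real.sqrt 2 + i • (1 : ℝ)) : ℝ) : ℂ) * Complex.I =
            (j : ℂ) * (((2 * Real.pi * Real.sqrt 2 : ℝ) : ℂ) * Complex.I) +
            (i : ℂ) * (2 * Real.pi * Complex.I) := by
          simp only [zsmul_eq_mul]
          push_cast
          ring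
        rw [this, Complex.exp_add, Complex.exp_int_mul_two_pi_mul_I, mul_one]
      simp only [f]
      rw [h1]
      have h2 := hC 1 (by simp) ‖z‖ (norm_pos_iff.mpr hz)
      rw [mul_one] at h2
      exact mul_mem_closure h2 (hzpow j)
    have h3 : f (Complex.arg z / (2 * Real.pi)) = z := by
      simp only [f]
      have : (((2 * Real.pi * (Complex.arg z / (2 * Real.pi)) : ℝ) : ℂ)) = (Complex.arg z : ℂ) := by
        congr 1
        field_simp
      rw [this]
      exact Complex.norm_mul_exp_arg_mul_I z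
    have h4 : f (Complex.arg z / (2 * Real.pi)) ∈
        closure (f '' (AddSubgroup.closure {Real.sqrt 2, (1 : ℝ)} : Set ℝ)) := by
      apply image_closure_subset_closure_image hf
      exact ⟨_, hdense _, rfl⟩
    rw [h3] at h4
    have h5 := closure_mono hmaps h4
    rwa [closure_closure] at h5
  have hopen : IsOpen {z : ℂ | z ≠ 0} := isOpen_ne
  exact ⟨1, interior_maximal (fun z hz => hall z hz) hopen one_ne_zero⟩

/-- dimension zero -/
theorem forcing_zero [Subsingleton V] : Forcing 𝕜 V := by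
  refine ⟨∅, Set.finite_empty, by simp, ?_⟩
  rintro S ⟨F, _, ⟨s, hs⟩, _, rfl⟩ _
  refine ⟨0, 0, ?_⟩
  have : orbit (Subsemigroup.closure F) (0 : V) = Set.univ := by
    apply Set.eq_univ_of_forall
    intro x
    exact ⟨s, Subsemigroup.subset_closure hs, Subsingleton.elim _ _⟩
  rw [this]
  simp

end Pool.Agent.Q224.RY
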